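import Mathlib

/-!
# Moments up to order three do not determine complex discrete Gaussians

In every dimension `g ≥ 1` there are two different complex discrete Gaussians with the same moments
of order at most three.  They have `u = 0` and parameters `b • 1` and `conj b • 1`, where `b` is such
that the variance of the one-dimensional discrete Gaussian with parameter `b` is real while
`exp (- π b)` is not real.
-/

set_option autoImplicit false

namespace Pool.Agent.Results.MP_e16cda_ag.ThreeMomentsFail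

open Filter Topology

/-- The number `e^{2π (nᵗ u - ½ nᵗ B n)}`. -/
noncomputable def weight {g : ℕ} (u : Fin g → ℂ) (B : Matrix (Fin g) (Fin g) ℂ) (n : Fin g → ℤ) :
    ℂ :=
  Complex.exp (2 * Real.pi *
    ((∑ i, (n i : ℂ) * u i) - (1 / 2) * ∑ i, ∑ j, (n i : ℂ) * B i j * (n j : ℂ)))

/-- `B` is in `ℍ_g`: it is symmetric and its real part is positive definite. -/
def IsParameter {g : ℕ} (B : Matrix (Fin g) (Fin g) ℂ) : Prop :=
  B.IsSymm ∧ (B.map Complex.re).PosDef

/-- The theta function `θ(u, B)`. -/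
noncomputable def theta {g : ℕ} (u : Fin g → ℂ) (B : Matrix (Fin g) (Fin g) ℂ) : ℂ :=
  ∑' n : Fin g → ℤ, weight u B n

/-- The discrete Gaussian `p_{(u, B)}`, a function on `ℤ^g`. -/
noncomputable def gaussian {g : ℕ} (u : Fin g → ℂ) (B : Matrix (Fin g) (Fin g) ℂ) :
    (Fin g → ℤ) → ℂ :=
  fun n => weight u B n / theta u B

/-- The moment `m_α(u, B)`. -/
noncomputable def moment {g : ℕ} (u : Fin g → ℂ) (B : Matrix (Fin g) (Fin g) ℂ) (α : Fin g → ℕ) :
    ℂ :=
  ∑' n : Fin g → ℤ, (∏ i, (n i : ℂ) ^ α i) * gaussian u B n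

/-- Moments up to order `d` determine discrete Gaussians in dimension `g`. -/
def MomentsDetermine (g d : ℕ) : Prop :=
  ∀ (u : Fin g → ℂ) (B : Matrix (Fin g) (Fin g) ℂ) (u' : Fin g → ℂ)
    (B' : Matrix (Fin g) (Fin g) ℂ), IsParameter B → IsParameter B' → theta u B ≠ 0 →
    theta u' B' ≠ 0 → (∀ α : Fin g → ℕ, ∑ i, α i ≤ d → moment u B α = moment u' B' α) →
    gaussian u B = gaussian u' B'

/-! ### The one-dimensional sums -/

/-- the terms of the one-dimensional sums -/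
noncomputable def term (k : ℕ) (q : ℂ) (n : ℤ) : ℂ := (n : ℂ) ^ k * q ^ (n.natAbs ^ 2)

/-- the sums `∑ n^k q^(n²)` over the integers -/
noncomputable def T (k : ℕ) (q : ℂ) : ℂ := ∑' n : ℤ, term k q n

/-- the terms over the natural numbers -/
noncomputable def sterm (k : ℕ) (q : ℂ) (n : ℕ) : ℂ := (n : ℂ) ^ k * q ^ (n ^ 2)

/-- the sums over the natural numbers -/
noncomputable def S (k : ℕ) (q : ℂ) : ℂ := ∑' n : ℕ, sterm k q n

theorem norm_sterm_le (k : ℕ) (q : ℂ) (hq : ‖q‖ ≤ 1) (n : ℕ) :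
    ‖sterm k q n‖ ≤ (n : ℝ) ^ k * ‖q‖ ^ n := by
  rw [sterm, norm_mul, norm_pow, norm_pow, Complex.norm_natCast]
  refine mul_le_mul_of_nonneg_left ?_ (by positivity)
  exact pow_le_pow_of_le_one (norm_nonneg q) hq (by nlinarith [Nat.le_mul_self n])

theorem summable_bound (k : ℕ) (r : ℝ) (hr : 0 ≤ r) (hr1 : r < 1) :
    Summable (fun n : ℕ => (n : ℝ) ^ k * r ^ n) := by
  apply summable_pow_mul_geometric_of_norm_lt_one
  rwa [Real.norm_eq_abs, abs_of_nonneg hr]

theorem summable_norm_sterm (k : ℕ) (q : ℂ) (hq : ‖q‖ < 1) :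
    Summable (fun n => ‖sterm k q n‖) :=
  Summable.of_nonneg_of_le (fun _ => norm_nonneg _) (norm_sterm_le k q hq.le)
    (summable_bound k ‖q‖ (norm_nonneg q) hq)

theorem norm_term_eq (k : ℕ) (q : ℂ) (n : ℤ) : ‖term k q n‖ = ‖sterm k q n.natAbs‖ := by
  simp only [term, sterm, norm_mul, norm_pow, Complex.norm_natCast, Complex.norm_intCast]
  rw [Nat.cast_natAbs, Int.cast_abs]

theorem summable_norm_term (k : ℕ) (q : ℂ) (hq : ‖q‖ < 1) :
    Summable (fun n => ‖term k q n‖) := by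
  have h := summable_norm_sterm k q hq
  apply Summable.of_nat_of_neg
  · refine h.congr fun n => ?_
    rw [norm_term_eq]
    simp
  · refine h.congr fun n => ?_
    rw [norm_term_eq]
    simp

theorem T_odd (k : ℕ) (hk : Odd k) (q : ℂ) : T k q = 0 := by
  have h : T k q = - T k q := by
    unfold T
    rw [← tsum_neg, ← (Equiv.neg ℤ).tsum_eq]
    refine tsum_congr fun n => ?_
    simp [term, hk.neg_pow]
  have h2 : (2 : ℂ) * T k q = 0 := by linear_combination h
  simpa using h2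

theorem T_even (k : ℕ) (hk : Even k) (q : ℂ) (hq : ‖q‖ < 1) :
    T k q = 2 * S k q - (0 : ℂ) ^ k := by
  have h := (summable_norm_term k q hq).of_norm.hasSum.nat_add_neg
  have h1 : (fun n : ℕ => term k q n + term k q (-n)) = fun n : ℕ => 2 * sterm k q n := by
    funext n
    simp [term, sterm, hk.neg_pow]
    ring
  rw [h1] at h
  have h2 := ((summable_norm_sterm k q hq).of_norm.hasSum.mul_left 2)
  have h3 := h.unique h2
  have h4 : term k q 0 = (0 : ℂ) ^ k := by simp [term]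
  rw [h4] at h3
  unfold T S
  linear_combination h3

theorem T_conj (k : ℕ) (q : ℂ) : T k ((starRingEnd ℂ) q) = (starRingEnd ℂ) (T k q) := by
  unfold T
  rw [Complex.conj_tsum]
  refine tsum_congr fun n => ?_
  simp [term]

theorem sq_le_two_pow (n : ℕ) : (n + 4) ^ 2 ≤ 2 ^ (n + 4) := by
  induction n with
  | zero => norm_num
  | succ n ih =>
    have : 2 ^ (n + 1 + 4) = 2 * 2 ^ (n + 4) := by ring
    rw [this]
    calc (n + 1 + 4) ^ 2 ≤ 2 * (n + 4) ^ 2 := by ring_nf; nlinarith [Nat.zero_le (n ^ 2)]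
      _ ≤ 2 * 2 ^ (n + 4) := Nat.mul_le_mul_left 2 ih

theorem norm_pow_le (q : ℂ) (hq : ‖q‖ ≤ 3 / 5) (n : ℕ) :
    ‖q‖ ^ ((n + 4) ^ 2) ≤ ((81 / 625 : ℝ)) ^ (n + 4) := by
  have h1 : ‖q‖ ^ ((n + 4) ^ 2) ≤ ‖q‖ ^ (4 * (n + 4)) :=
    pow_le_pow_of_le_one (norm_nonneg q) (by linarith) (by nlinarith)
  have h2 : ‖q‖ ^ (4 * (n + 4)) ≤ (3 / 5 : ℝ) ^ (4 * (n + 4)) :=
    pow_le_pow_left₀ (norm_nonneg q) hq _
  refine h1.trans (h2.trans (le_of_eq ?_))
  rw [pow_mul]
  norm_num

/-- truncation of `S 0` -/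
theorem S0_approx (q : ℂ) (hq : ‖q‖ ≤ 3 / 5) :
    ‖S 0 q - (1 + q + q ^ 4 + q ^ 9)‖ ≤ 1 / 2000 := by
  have h1 := (summable_norm_sterm 0 q (by linarith)).of_norm.sum_add_tsum_nat_add 4
  have h2 : ∑ i ∈ Finset.range 4, sterm 0 q i = 1 + q + q ^ 4 + q ^ 9 := by
    simp [Finset.sum_range_succ, sterm]
  rw [h2] at h1
  have h3 : S 0 q - (1 + q + q ^ 4 + q ^ 9) = ∑' n : ℕ, sterm 0 q (n + 4) := by
    unfold S
    rw [← h1]
    ring
  rw [h3]
  have hg : HasSum (fun n : ℕ => (81 / 625 : ℝ) ^ 4 * (81 / 625 : ℝ) ^ n)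
      ((81 / 625 : ℝ) ^ 4 * (1 - 81 / 625)⁻¹) :=
    (hasSum_geometric_of_lt_one (by norm_num) (by norm_num)).mul_left _
  refine (tsum_of_norm_bounded hg fun n => ?_).trans (by norm_num)
  have h5 : ‖sterm 0 q (n + 4)‖ = ‖q‖ ^ ((n + 4) ^ 2) := by simp [sterm]
  rw [h5]
  refine (norm_pow_le q hq n).trans (le_of_eq ?_)
  rw [pow_add]
  ring

/-- truncation of `S 2` -/
theorem S2_approx (q : ℂ) (hq : ‖q‖ ≤ 3 / 5) :
    ‖S 2 q - (q + 4 * q ^ 4 + 9 * q ^ 9)‖ ≤ 1 / 100 := by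
  have h1 := (summable_norm_sterm 2 q (by linarith)).of_norm.sum_add_tsum_nat_add 4
  have h2 : ∑ i ∈ Finset.range 4, sterm 2 q i = q + 4 * q ^ 4 + 9 * q ^ 9 := by
    simp [Finset.sum_range_succ, sterm]
    norm_num
  rw [h2] at h1
  have h3 : S 2 q - (q + 4 * q ^ 4 + 9 * q ^ 9) = ∑' n : ℕ, sterm 2 q (n + 4) := by
    unfold S
    rw [← h1]
    ring
  rw [h3]
  have hg : HasSum (fun n : ℕ => (162 / 625 : ℝ) ^ 4 * (162 / 625 : ℝ) ^ n)
      ((162 / 625 : ℝ) ^ 4 * (1 - 162 / 625)⁻¹) :=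
    (hasSum_geometric_of_lt_one (by norm_num) (by norm_num)).mul_left _
  refine (tsum_of_norm_bounded hg fun n => ?_).trans (by norm_num)
  have h5 : ‖sterm 2 q (n + 4)‖ = ((n + 4 : ℕ) : ℝ) ^ 2 * ‖q‖ ^ ((n + 4) ^ 2) := by
    simp only [sterm, norm_mul, norm_pow, Complex.norm_natCast]
  rw [h5]
  have h6 : ((n + 4 : ℕ) : ℝ) ^ 2 ≤ (2 : ℝ) ^ (n + 4) := by exact_mod_cast sq_le_two_pow n
  calc ((n + 4 : ℕ) : ℝ) ^ 2 * ‖q‖ ^ ((n + 4) ^ 2)
      ≤ (2 : ℝ) ^ (n + 4) * (81 / 625 : ℝ) ^ (n + 4) :=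
        mul_le_mul h6 (norm_pow_le q hq n) (by positivity) (by positivity)
    _ = (162 / 625 : ℝ) ^ 4 * (162 / 625 : ℝ) ^ n := by
        rw [← mul_pow, pow_add]
        norm_num
        ring

/-! ### The sign change -/

/-- the direction of the numbers `q` -/
noncomputable def w : ℂ := ⟨7 / 25, 24 / 25⟩

theorem norm_w : ‖w‖ = 1 := by
  rw [w, Complex.norm_def, Complex.normSq_mk]
  norm_num

/-- the imaginary part of `T₂ conj T₀` along the ray of `w` -/
noncomputable def G (r : ℝ) : ℝ :=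
  ((2 * S 2 (r * w)) * (starRingEnd ℂ) (2 * S 0 (r * w) - 1)).im

theorem norm_rw (r : ℝ) (hr : 0 ≤ r) : ‖(r : ℂ) * w‖ = r := by
  rw [norm_mul, norm_w, Complex.norm_real, Real.norm_eq_abs, abs_of_nonneg hr, mul_one]

theorem continuousOn_S (k : ℕ) : ContinuousOn (fun r : ℝ => S k (r * w)) (Set.Icc 0 (3 / 5)) := by
  unfold S
  refine continuousOn_tsum (u := fun n : ℕ => (n : ℝ) ^ k * (3 / 5 : ℝ) ^ n) (fun n => ?_)
    (summable_bound k _ (by norm_num) (by norm_num)) (fun n r hr => ?_)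
  · unfold sterm
    fun_prop
  · refine (norm_sterm_le k _ (by rw [norm_rw r hr.1]; linarith [hr.2]) n).trans ?_
    rw [norm_rw r hr.1]
    exact mul_le_mul_of_nonneg_left (pow_le_pow_left₀ hr.1 hr.2 n) (by positivity)

theorem continuousOn_G : ContinuousOn G (Set.Icc 0 (3 / 5)) := by
  unfold G
  have h2 := continuousOn_S 2
  have h0 := continuousOn_S 0
  fun_prop

/-- The value of `G` is close to that of its truncation. -/
theorem G_approx (q : ℂ) (hq : ‖q‖ ≤ 3 / 5) :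
    |((2 * S 2 q) * (starRingEnd ℂ) (2 * S 0 q - 1)).im -
      ((2 * (q + 4 * q ^ 4 + 9 * q ^ 9)) * (starRingEnd ℂ) (1 + 2 * (q + q ^ 4 + q ^ 9))).im| ≤
      1 / 10 := by
  have h0 := S0_approx q hq
  have h2 := S2_approx q hq
  set a := S 2 q with ha
  set b := S 0 q with hb
  set a' := q + 4 * q ^ 4 + 9 * q ^ 9 with ha'
  set b' := 1 + q + q ^ 4 + q ^ 9 with hb'
  have hq0 := norm_nonneg q
  have n4 : ‖q‖ ^ 4 ≤ 81 / 625 := by
    have := pow_le_pow_left₀ hq0 hq 4
    norm_num at this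
    exact this
  have n9 : ‖q‖ ^ 9 ≤ 1 / 90 := by
    have := pow_le_pow_left₀ hq0 hq 9
    norm_num at this
    linarith
  have na' : ‖a'‖ ≤ 13 / 10 := by
    calc ‖a'‖ ≤ ‖q‖ + ‖4 * q ^ 4‖ + ‖9 * q ^ 9‖ := norm_add₃_le
      _ = ‖q‖ + 4 * ‖q‖ ^ 4 + 9 * ‖q‖ ^ 9 := by simp [norm_pow]
      _ ≤ 13 / 10 := by linarith
  have nb' : ‖2 * b' - 1‖ ≤ 5 / 2 := by
    have e : 2 * b' - 1 = 1 + 2 * q + (2 * q ^ 4 + 2 * q ^ 9) := by rw [hb']; ring
    rw [e]
    calc ‖1 + 2 * q + (2 * q ^ 4 + 2 * q ^ 9)‖ ≤ ‖(1 : ℂ)‖ + ‖2 * q‖ + ‖2 * q ^ 4 + 2 * q ^ 9‖ :=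
          norm_add₃_le
      _ ≤ ‖(1 : ℂ)‖ + ‖2 * q‖ + (‖2 * q ^ 4‖ + ‖2 * q ^ 9‖) := by gcongr; exact norm_add_le _ _
      _ = 1 + 2 * ‖q‖ + (2 * ‖q‖ ^ 4 + 2 * ‖q‖ ^ 9) := by simp [norm_pow]
      _ ≤ 5 / 2 := by linarith
  have e1 : (1 + 2 * (q + q ^ 4 + q ^ 9) : ℂ) = 2 * b' - 1 := by rw [hb']; ring
  rw [e1, ← Complex.sub_im]
  refine (Complex.abs_im_le_norm _).trans ?_
  have e2 : 2 * a * (starRingEnd ℂ) (2 * b - 1) - 2 * a' * (starRingEnd ℂ) (2 * b' - 1) =
      2 * (a - a') * (starRingEnd ℂ) (2 * b' - 1) + 2 * a' * (2 * (starRingEnd ℂ) (b - b')) +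
      2 * (a - a') * (2 * (starRingEnd ℂ) (b - b')) := by
    simp only [map_sub, map_mul, map_one, map_ofNat]
    ring
  rw [e2]
  refine norm_add₃_le.trans ?_
  simp only [norm_mul, RCLike.norm_conj]
  have e3 : ‖(2 : ℂ)‖ = 2 := by simp
  rw [e3]
  have p1 : ‖a - a'‖ * ‖2 * b' - 1‖ ≤ 1 / 100 * (5 / 2) := by gcongr
  have p2 : ‖a'‖ * ‖b - b'‖ ≤ 13 / 10 * (1 / 2000) := by gcongr
  have p3 : ‖a - a'‖ * ‖b - b'‖ ≤ 1 / 100 * (1 / 2000) := by gcongr
  nlinarith [p1, p2, p3]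

theorem G_pos : 0 < G (3 / 10) := by
  have hq : (((3 / 10 : ℝ)) : ℂ) * w = (⟨21/250, 36/125⟩ : ℂ) := by
    apply Complex.ext
    · simp [w]; norm_num
    · simp [w]; norm_num
  have h2 : (⟨21/250, 36/125⟩ : ℂ) ^ 2 = (⟨-4743/62500, 756/15625⟩ : ℂ) := by
    rw [pow_two]; apply Complex.ext
    · simp only [Complex.mul_re]; norm_num
    · simp only [Complex.mul_im]; norm_num
  have h4 : (⟨21/250, 36/125⟩ : ℂ) ^ 4 = (⟨13351473/3906250000, -1792854/244140625⟩ : ℂ) := by
    rw [show (4 : ℕ) = 2 * 2 from rfl, pow_mul, h2, pow_two]; apply Complex.ext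
    · simp only [Complex.mul_re]; norm_num
    · simp only [Complex.mul_im]; norm_num
  have h8 : (⟨21/250, 36/125⟩ : ℂ) ^ 8 = (⟨-644605487851167/15258789062500000000, -11968620886971/238418579101562500⟩ : ℂ) := by
    rw [show (8 : ℕ) = 4 * 2 from rfl, pow_mul, h4, pow_two]; apply Complex.ext
    · simp only [Complex.mul_re]; norm_num
    · simp only [Complex.mul_im]; norm_num
  have h9 : (⟨21/250, 36/125⟩ : ℂ) ^ 9 = (⟨41614689802287861/3814697265625000000000, -7812177699671631/476837158203125000000⟩ : ℂ) := by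
    rw [show (9 : ℕ) = 8 + 1 from rfl, pow_succ, h8]; apply Complex.ext
    · simp only [Complex.mul_re]; norm_num
    · simp only [Complex.mul_im]; norm_num
  have h := G_approx (⟨21/250, 36/125⟩ : ℂ) (by
    rw [← hq, norm_rw _ (by norm_num)]
    norm_num)
  rw [h4, h9] at h
  unfold G
  rw [hq]
  rw [abs_le] at h
  generalize (2 * S 2 (⟨21 / 250, 36 / 125⟩ : ℂ) * (starRingEnd ℂ) (2 * S 0 (⟨21 / 250, 36 / 125⟩ : ℂ) - 1)).im = g at h ⊢
  obtain ⟨ha, hb⟩ := h
  have e : ((2 * ((⟨21/250, 36/125⟩ : ℂ) + 4 * (⟨13351473/3906250000, -1792854/244140625⟩ : ℂ) + 9 * (⟨41614689802287861/3814697265625000000000, -7812177699671631/476837158203125000000⟩ : ℂ))) *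
      (starRingEnd ℂ) (1 + 2 * ((⟨21/250, 36/125⟩ : ℂ) + (⟨13351473/3906250000, -1792854/244140625⟩ : ℂ) + (⟨41614689802287861/3814697265625000000000, -7812177699671631/476837158203125000000⟩ : ℂ)))).im =
      2 * ((36/125) + 4 * (-1792854/244140625) + 9 * (-7812177699671631/476837158203125000000)) * (1 + 2 * ((21/250) + (13351473/3906250000) + (41614689802287861/3814697265625000000000))) -
      2 * ((21/250) + 4 * (13351473/3906250000) + 9 * (41614689802287861/3814697265625000000000)) * (2 * ((36/125) + (-1792854/244140625) + (-7812177699671631/476837158203125000000))) := by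
    simp only [Complex.mul_im, Complex.mul_re, Complex.add_re, Complex.add_im, Complex.conj_re,
      Complex.conj_im, Complex.one_re, Complex.one_im, Complex.re_ofNat, Complex.im_ofNat]
    ring
  rw [e] at ha hb
  norm_num at ha hb
  linarith

theorem G_neg : G (3 / 5) < 0 := by
  have hq : (((3 / 5 : ℝ)) : ℂ) * w = (⟨21/125, 72/125⟩ : ℂ) := by
    apply Complex.ext
    · simp [w]; norm_num
    · simp [w]; norm_num
  have h2 : (⟨21/125, 72/125⟩ : ℂ) ^ 2 = (⟨-4743/15625, 3024/15625⟩ : ℂ) := by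
    rw [pow_two]; apply Complex.ext
    · simp only [Complex.mul_re]; norm_num
    · simp only [Complex.mul_im]; norm_num
  have h4 : (⟨21/125, 72/125⟩ : ℂ) ^ 4 = (⟨13351473/244140625, -28685664/244140625⟩ : ℂ) := by
    rw [show (4 : ℕ) = 2 * 2 from rfl, pow_mul, h2, pow_two]; apply Complex.ext
    · simp only [Complex.mul_re]; norm_num
    · simp only [Complex.mul_im]; norm_num
  have h8 : (⟨21/125, 72/125⟩ : ℂ) ^ 8 = (⟨-644605487851167/59604644775390625, -765991736766144/59604644775390625⟩ : ℂ) := by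
    rw [show (8 : ℕ) = 4 * 2 from rfl, pow_mul, h4, pow_two]; apply Complex.ext
    · simp only [Complex.mul_re]; norm_num
    · simp only [Complex.mul_im]; norm_num
  have h9 : (⟨21/125, 72/125⟩ : ℂ) ^ 9 = (⟨41614689802287861/7450580596923828125, -62497421597373048/7450580596923828125⟩ : ℂ) := by
    rw [show (9 : ℕ) = 8 + 1 from rfl, pow_succ, h8]; apply Complex.ext
    · simp only [Complex.mul_re]; norm_num
    · simp only [Complex.mul_im]; norm_num
  have h := G_approx (⟨21/125, 72/125⟩ : ℂ) (by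
    rw [← hq, norm_rw _ (by norm_num)])
  rw [h4, h9] at h
  unfold G
  rw [hq]
  rw [abs_le] at h
  generalize (2 * S 2 (⟨21 / 125, 72 / 125⟩ : ℂ) * (starRingEnd ℂ) (2 * S 0 (⟨21 / 125, 72 / 125⟩ : ℂ) - 1)).im = g at h ⊢
  obtain ⟨ha, hb⟩ := h
  have e : ((2 * ((⟨21/125, 72/125⟩ : ℂ) + 4 * (⟨13351473/244140625, -28685664/244140625⟩ : ℂ) + 9 * (⟨41614689802287861/7450580596923828125, -62497421597373048/7450580596923828125⟩ : ℂ))) *
      (starRingEnd ℂ) (1 + 2 * ((⟨21/125, 72/125⟩ : ℂ) + (⟨13351473/244140625, -28685664/244140625⟩ : ℂ) + (⟨41614689802287861/7450580596923828125, -62497421597373048/7450580596923828125⟩ : ℂ)))).im =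
      2 * ((72/125) + 4 * (-28685664/244140625) + 9 * (-62497421597373048/7450580596923828125)) * (1 + 2 * ((21/125) + (13351473/244140625) + (41614689802287861/7450580596923828125))) -
      2 * ((21/125) + 4 * (13351473/244140625) + 9 * (41614689802287861/7450580596923828125)) * (2 * ((72/125) + (-28685664/244140625) + (-62497421597373048/7450580596923828125))) := by
    simp only [Complex.mul_im, Complex.mul_re, Complex.add_re, Complex.add_im, Complex.conj_re,
      Complex.conj_im, Complex.one_re, Complex.one_im, Complex.re_ofNat, Complex.im_ofNat]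
    ring
  rw [e] at ha hb
  norm_num at ha hb
  linarith

/-- There is a `q` in the unit disc, not real, with `T₀ ≠ 0` and `T₂ conj T₀` real. -/
theorem exists_q : ∃ q : ℂ, q ≠ 0 ∧ ‖q‖ < 1 ∧ q.im ≠ 0 ∧ T 0 q ≠ 0 ∧
    (T 2 q * (starRingEnd ℂ) (T 0 q)).im = 0 := by
  have hc : ContinuousOn G (Set.Icc (3 / 10) (3 / 5)) :=
    continuousOn_G.mono (Set.Icc_subset_Icc (by norm_num) le_rfl)
  have hmem : (0 : ℝ) ∈ Set.Icc (G (3 / 5)) (G (3 / 10)) := ⟨G_neg.le, G_pos.le⟩
  obtain ⟨r, ⟨hr1, hr2⟩, hr⟩ := intermediate_value_Icc' (by norm_num) hc hmem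
  have hr0 : 0 < r := by linarith
  have hnorm : ‖(r : ℂ) * w‖ = r := norm_rw r hr0.le
  have hlt : ‖(r : ℂ) * w‖ < 1 := by rw [hnorm]; linarith
  have e0 := T_even 0 (by decide) ((r : ℂ) * w) hlt
  have e2 := T_even 2 (by decide) ((r : ℂ) * w) hlt
  rw [pow_zero] at e0
  rw [zero_pow (by norm_num), sub_zero] at e2
  refine ⟨(r : ℂ) * w, ?_, hlt, ?_, ?_, ?_⟩
  · intro h
    rw [h, norm_zero] at hnorm
    linarith
  · have : ((r : ℂ) * w).im = r * (24 / 25) := by simp [w]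
    rw [this]
    positivity
  · intro h
    set q := (r : ℂ) * w with hq
    have h0 := S0_approx q (by rw [hnorm]; exact hr2)
    have n4 : ‖q‖ ^ 4 ≤ 81 / 625 := by
      have := pow_le_pow_left₀ (norm_nonneg q) (hnorm.le.trans hr2) 4
      norm_num at this
      exact this
    have n9 : ‖q‖ ^ 9 ≤ 1 / 90 := by
      have := pow_le_pow_left₀ (norm_nonneg q) (hnorm.le.trans hr2) 9
      norm_num at this
      linarith
    have h1 : (1 + 2 * q : ℂ) = -(2 * (S 0 q - (1 + q + q ^ 4 + q ^ 9))) - 2 * q ^ 4 - 2 * q ^ 9 := by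
      rw [h] at e0
      linear_combination -e0
    have h2 : ‖(1 + 2 * q : ℂ)‖ ≤ 2 * (1 / 2000) + 2 * (81 / 625) + 2 * (1 / 90) := by
      rw [h1]
      refine (norm_sub_le _ _).trans (add_le_add ((norm_sub_le _ _).trans (add_le_add ?_ ?_)) ?_)
      · rw [norm_neg, norm_mul]
        have : ‖(2 : ℂ)‖ = 2 := by simp
        rw [this]
        linarith
      · rw [norm_mul, norm_pow]
        have : ‖(2 : ℂ)‖ = 2 := by simp
        rw [this]
        linarith
      · rw [norm_mul, norm_pow]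
        have : ‖(2 : ℂ)‖ = 2 := by simp
        rw [this]
        linarith
    have h3 : (1 + 2 * q : ℂ).re = 1 + 2 * (r * (7 / 25)) := by simp [hq, w]
    have h4 := (Complex.abs_re_le_norm (1 + 2 * q)).trans h2
    rw [h3, abs_of_nonneg (by positivity)] at h4
    linarith
  · rw [e0, e2]
    exact hr

/-! ### Products -/

theorem prod_sum (g : ℕ) : ∀ F : Fin g → ℤ → ℂ, (∀ i, Summable (fun n => ‖F i n‖)) →
    Summable (fun n : Fin g → ℤ => ‖∏ i, F i (n i)‖) ∧
      ∑' n : Fin g → ℤ, ∏ i, F i (n i) = ∏ i, ∑' m, F i m := by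
  induction g with
  | zero =>
    intro F _
    refine ⟨Summable.of_finite, ?_⟩
    simp [tsum_fintype]
  | succ g ih =>
    intro F hF
    obtain ⟨h1, h2⟩ := ih (fun i => F i.succ) (fun i => hF _)
    let e := Fin.consEquiv (fun _ : Fin (g + 1) => ℤ)
    have he : ∀ x : ℤ × (Fin g → ℤ), ∏ i, F i (e x i) = F 0 x.1 * ∏ i : Fin g, F i.succ (x.2 i) := by
      intro x
      rw [Fin.prod_univ_succ]
      simp [e]
    refine ⟨?_, ?_⟩
    · rw [← e.summable_iff]
      have h3 := (hF 0).mul_norm h1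
      refine h3.congr fun x => ?_
      rw [Function.comp_apply, he]
    · rw [← e.tsum_eq]
      simp only [he]
      rw [← tsum_mul_tsum_of_summable_norm (hF 0) h1, h2, Fin.prod_univ_succ]

theorem weight_smul_one {g : ℕ} (b : ℂ) (n : Fin g → ℤ) :
    weight 0 (b • (1 : Matrix (Fin g) (Fin g) ℂ)) n =
      ∏ i, Complex.exp (-(Real.pi * b)) ^ ((n i).natAbs ^ 2) := by
  have h1 : ∀ i : Fin g, Complex.exp (-(Real.pi * b)) ^ ((n i).natAbs ^ 2) =
      Complex.exp (-(Real.pi * b) * (n i : ℂ) ^ 2) := by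
    intro i
    rw [← Complex.exp_nat_mul]
    congr 1
    have : (((n i).natAbs ^ 2 : ℕ) : ℂ) = (n i : ℂ) ^ 2 := by
      have h : (((n i).natAbs ^ 2 : ℕ) : ℤ) = (n i) ^ 2 := by
        rw [Nat.cast_pow]
        exact Int.natAbs_sq _
      rw [← Int.cast_natCast, h, Int.cast_pow]
    rw [this]
    ring
  simp only [h1]
  rw [← Complex.exp_sum, weight]
  congr 1
  simp only [Pi.zero_apply, mul_zero, Finset.sum_const_zero, zero_sub, Matrix.smul_apply,
    Matrix.one_apply, smul_eq_mul, mul_ite, mul_one, ite_mul, zero_mul, Finset.sum_ite_eq,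
    Finset.mem_univ, if_true, Finset.mul_sum, ← Finset.sum_neg_distrib]
  refine Finset.sum_congr rfl fun i _ => ?_
  ring

theorem theta_smul_one {g : ℕ} (b : ℂ) (hq : ‖Complex.exp (-(Real.pi * b))‖ < 1) :
    theta 0 (b • (1 : Matrix (Fin g) (Fin g) ℂ)) = T 0 (Complex.exp (-(Real.pi * b))) ^ g := by
  unfold theta
  simp only [weight_smul_one]
  have h := (prod_sum g (fun _ => term 0 (Complex.exp (-(Real.pi * b))))
    (fun _ => summable_norm_term 0 _ hq)).2
  simp only [Finset.prod_const, Finset.card_univ, Fintype.card_fin] at h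
  rw [T, ← h]
  refine tsum_congr fun n => ?_
  simp [term]

theorem moment_smul_one {g : ℕ} (b : ℂ) (hq : ‖Complex.exp (-(Real.pi * b))‖ < 1)
    (α : Fin g → ℕ) :
    moment 0 (b • (1 : Matrix (Fin g) (Fin g) ℂ)) α =
      ∏ i, (T (α i) (Complex.exp (-(Real.pi * b))) / T 0 (Complex.exp (-(Real.pi * b)))) := by
  unfold moment gaussian
  rw [theta_smul_one b hq]
  simp only [weight_smul_one]
  have h := (prod_sum g (fun i => term (α i) (Complex.exp (-(Real.pi * b))))
    (fun _ => summable_norm_term _ _ hq)).2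
  rw [Finset.prod_div_distrib, Finset.prod_const, Finset.card_univ, Fintype.card_fin]
  unfold T at h ⊢
  rw [← h, ← tsum_div_const]
  refine tsum_congr fun n => ?_
  rw [← mul_div_assoc, ← Finset.prod_mul_distrib]
  rfl

theorem isParameter_smul_one {g : ℕ} (b : ℂ) (hb : 0 < b.re) :
    IsParameter (b • (1 : Matrix (Fin g) (Fin g) ℂ)) := by
  refine ⟨?_, ?_⟩
  · rw [Matrix.IsSymm, Matrix.transpose_smul, Matrix.transpose_one]
  · have h : (b • (1 : Matrix (Fin g) (Fin g) ℂ)).map Complex.re = b.re • (1 : Matrix (Fin g) (Fin g) ℝ) := by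
      ext i j
      by_cases hij : i = j
      · simp [hij]
      · simp [hij]
    rw [h]
    exact Matrix.PosDef.one.smul hb

/-- In every dimension `g ≥ 1`, moments up to order three do not determine discrete Gaussians. -/
theorem result (g : ℕ) (hg : 1 ≤ g) : ¬ MomentsDetermine g 3 := by
  intro hdet
  obtain ⟨q, hq0, hq1, hqim, hT0, hreal⟩ := exists_q
  set b : ℂ := -(Complex.log q / Real.pi) with hb
  have hpi : (Real.pi : ℂ) ≠ 0 := by exact_mod_cast Real.pi_ne_zero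
  have hexp : Complex.exp (-(Real.pi * b)) = q := by
    have : -((Real.pi : ℂ) * b) = Complex.log q := by
      rw [hb]
      field_simp
    rw [this, Complex.exp_log hq0]
  have hexp' : Complex.exp (-(Real.pi * (starRingEnd ℂ) b)) = (starRingEnd ℂ) q := by
    rw [← hexp, ← Complex.exp_conj]
    congr 1
    simp
  have hre : 0 < b.re := by
    have h1 : ‖Complex.exp (-(Real.pi * b))‖ < 1 := by rw [hexp]; exact hq1
    rw [Complex.norm_exp, Real.exp_lt_one_iff] at h1
    have h2 : (-((Real.pi : ℂ) * b)).re = -(Real.pi * b.re) := by simp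
    rw [h2] at h1
    have h3 : 0 < Real.pi * b.re := by linarith
    exact (mul_pos_iff_of_pos_left Real.pi_pos).1 h3
  have hre' : 0 < ((starRingEnd ℂ) b).re := by simpa using hre
  have hq1' : ‖(starRingEnd ℂ) q‖ < 1 := by rwa [RCLike.norm_conj]
  have hn : ‖Complex.exp (-(Real.pi * b))‖ < 1 := by rwa [hexp]
  have hn' : ‖Complex.exp (-(Real.pi * (starRingEnd ℂ) b))‖ < 1 := by rwa [hexp']
  have hT0' : T 0 ((starRingEnd ℂ) q) ≠ 0 := by
    rw [T_conj]
    simpa using hT0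
  have hfac : ∀ k ≤ 3, T k q / T 0 q = T k ((starRingEnd ℂ) q) / T 0 ((starRingEnd ℂ) q) := by
    intro k hk
    interval_cases k
    · rw [div_self hT0, div_self hT0']
    · rw [T_odd 1 (by decide), T_odd 1 (by decide)]
      simp
    · rw [T_conj, T_conj, ← map_div₀]
      symm
      rw [Complex.conj_eq_iff_im]
      have h1 : T 2 q / T 0 q = (T 2 q * (starRingEnd ℂ) (T 0 q)) / (Complex.normSq (T 0 q) : ℂ) := by
        rw [← Complex.mul_conj]
        have : (starRingEnd ℂ) (T 0 q) ≠ 0 := by simpa using hT0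
        field_simp
      rw [h1, Complex.div_ofReal_im, hreal, zero_div]
    · rw [T_odd 3 (by decide), T_odd 3 (by decide)]
      simp
  have hth : theta 0 (b • (1 : Matrix (Fin g) (Fin g) ℂ)) ≠ 0 := by
    rw [theta_smul_one b hn, hexp]
    exact pow_ne_zero _ hT0
  have hth' : theta 0 ((starRingEnd ℂ) b • (1 : Matrix (Fin g) (Fin g) ℂ)) ≠ 0 := by
    rw [theta_smul_one _ hn', hexp']
    exact pow_ne_zero _ hT0'
  have heq := hdet 0 (b • 1) 0 ((starRingEnd ℂ) b • 1) (isParameter_smul_one b hre)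
    (isParameter_smul_one _ hre') hth hth' (by
      intro α hα
      rw [moment_smul_one b hn, moment_smul_one _ hn', hexp, hexp']
      refine Finset.prod_congr rfl fun i _ => hfac _ ?_
      exact (Finset.single_le_sum (fun j _ => Nat.zero_le (α j)) (Finset.mem_univ i)).trans hα)
  have h0 := congrFun heq 0
  have h1 := congrFun heq (Pi.single (⟨0, hg⟩ : Fin g) 1)
  simp only [gaussian, weight_smul_one, hexp, hexp'] at h0 h1
  have e1 : ∀ z : ℂ, ∏ i, z ^ (((Pi.single (⟨0, hg⟩ : Fin g) (1 : ℤ) : Fin g → ℤ) i).natAbs ^ 2) = z := by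
    intro z
    rw [Finset.prod_eq_single (⟨0, hg⟩ : Fin g)]
    · simp
    · intro i _ hi
      simp [hi]
    · simp
  rw [e1, e1] at h1
  simp only [Pi.zero_apply, Int.natAbs_zero, ne_eq, OfNat.ofNat_ne_zero, not_false_eq_true,
    zero_pow, pow_zero, Finset.prod_const_one] at h0
  have h2 : q = (starRingEnd ℂ) q := by
    have h3 : theta 0 (b • (1 : Matrix (Fin g) (Fin g) ℂ)) =
        theta 0 ((starRingEnd ℂ) b • (1 : Matrix (Fin g) (Fin g) ℂ)) := by
      field_simp at h0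
      exact h0.symm
    rw [h3] at h1
    exact (div_left_inj' hth').1 h1
  exact hqim (Complex.conj_eq_iff_im.1 h2.symm)

end Pool.Agent.Results.MP_e16cda_ag.ThreeMomentsFail
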